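import Mathlib
import Pool.Agent.H.MP_37d573_pr.A

namespace Pool.Agent.Results.MP_37d573_pr.Yes

open MeasureTheory ProbabilityTheory Filter Topology Set Pool.Agent.H.MP_37d573_pr

/-- The random series `S = ∑_{n ≥ 1} I_n / n`; the variable `I n` is `I_{n+1}`. -/
noncomputable def S {Ω : Type} (I : ℕ → Ω → ℝ) (ω : Ω) : ℝ := ∑' n, I n ω / ((n : ℝ) + 1)

variable {Ω : Type}

lemma meas_tsum {m : MeasurableSpace Ω} (f : ℕ → Ω → ℝ) (hf : ∀ n, Measurable[m] (f n))
    (h0 : ∀ n ω, 0 ≤ f n ω) : Measurable[m] (fun ω => ∑' n, f n ω) := by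
  have : (fun ω => ∑' n, f n ω) = fun ω => (∑' n, ENNReal.ofReal (f n ω)).toReal := by
    ext ω
    rw [ENNReal.tsum_toReal_eq (fun _ => ENNReal.ofReal_ne_top)]
    simp [ENNReal.toReal_ofReal (h0 _ _)]
  rw [this]
  exact (Measurable.ennreal_tsum fun n => (hf n).ennreal_ofReal).ennreal_toReal

/-- The sigma-algebra generated by the variables with index in `U`. -/
@[reducible] def sig (I : ℕ → Ω → ℝ) (U : Set ℕ) : MeasurableSpace Ω :=
  ⨆ i ∈ U, MeasurableSpace.comap (I i) inferInstance

lemma meas_sig (I : ℕ → Ω → ℝ) {U : Set ℕ} {i : ℕ} (hi : i ∈ U) : Measurable[sig I U] (I i) :=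
  (comap_measurable (I i)).mono
    (le_iSup₂ (f := fun i (_ : i ∈ U) => MeasurableSpace.comap (I i) inferInstance) i hi) le_rfl

/-- The series with the indices in `U` kept. -/
noncomputable def T (I : ℕ → Ω → ℝ) (U : Set ℕ) (ω : Ω) : ℝ :=
  ∑' n, U.indicator (fun n => I n ω / ((n : ℝ) + 1)) n

lemma meas_T (I : ℕ → Ω → ℝ) (h01 : ∀ n ω, I n ω = 0 ∨ I n ω = 1) (U : Set ℕ) :
    Measurable[sig I U] (T I U) := by
  refine meas_tsum (fun n ω => U.indicator (fun n => I n ω / ((n : ℝ) + 1)) n) ?_ ?_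
  · intro n
    by_cases hn : n ∈ U
    · simp only [indicator_of_mem hn]
      exact (meas_sig I hn).div_const _
    · simp only [indicator_of_notMem hn]
      exact measurable_const
  · intro n ω
    refine indicator_nonneg (fun k _ => ?_) n
    rcases h01 k ω with h | h <;> rw [h] <;> positivity

variable [MeasurableSpace Ω] (P : Measure Ω) [IsProbabilityMeasure P] (I : ℕ → Ω → ℝ)

omit [IsProbabilityMeasure P] in
lemma ind (hm : ∀ n, Measurable (I n)) (hind : iIndepFun I P) (U : Set ℕ) {C D : Set Ω}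
    (hC : MeasurableSet[sig I U] C) (hD : MeasurableSet[sig I Uᶜ] D) :
    P.real (C ∩ D) = P.real C * P.real D := by
  have h := indep_iSup_of_disjoint (fun i => (hm i).comap_le) hind.iIndep
    (disjoint_compl_right (a := U))
  have := (Indep_iff _ _ _).1 h C D hC hD
  simp only [Measure.real, this, ENNReal.toReal_mul]

lemma int_I (hm : ∀ n, Measurable (I n)) (h01 : ∀ n ω, I n ω = 0 ∨ I n ω = 1)
    (ν : Measure Ω) [IsFiniteMeasure ν] (n : ℕ) :
    Integrable (I n) ν ∧ ∫ ω, I n ω ∂ν = ν.real {ω | I n ω = 1} := by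
  have hs : MeasurableSet {ω | I n ω = 1} := hm n (measurableSet_singleton 1)
  have : I n = {ω | I n ω = 1}.indicator 1 := by
    ext ω
    rcases h01 n ω with h | h <;> simp [indicator, h]
  refine ⟨?_, ?_⟩
  · rw [this]; exact (integrable_const 1).indicator hs
  · conv_lhs => rw [this]
    exact integral_indicator_one hs

lemma summ : Summable (fun n : ℕ => 1 / ((n : ℝ) + 1) * (1 / ((n : ℝ) + 1))) := by
  have := (summable_nat_add_iff 1).2 (Real.summable_one_div_nat_pow.2 one_lt_two)
  refine this.congr fun n => ?_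
  push_cast; field_simp

lemma hasSum_T (hm : ∀ n, Measurable (I n)) (h01 : ∀ n ω, I n ω = 0 ∨ I n ω = 1)
    (hP : ∀ n : ℕ, P.real {ω | I n ω = 1} = 1 / ((n : ℝ) + 1)) (U : Set ℕ) (B : Set Ω) :
    HasSum (fun n : ℕ => U.indicator
      (fun n => 1 / ((n : ℝ) + 1) * P.real ({ω | I n ω = 1} ∩ B)) n) (∫ ω in B, T I U ω ∂P) := by
  have hs : ∀ n, MeasurableSet {ω | I n ω = 1} := fun n => hm n (measurableSet_singleton 1)
  have e : ∀ n : ℕ, ∫ ω in B, U.indicator (fun n => I n ω / ((n : ℝ) + 1)) n ∂P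
      = U.indicator (fun n => 1 / ((n : ℝ) + 1) * P.real ({ω | I n ω = 1} ∩ B)) n := by
    intro n
    by_cases hn : n ∈ U
    · simp only [indicator_of_mem hn]
      rw [integral_div, (int_I I hm h01 _ n).2, measureReal_restrict_apply (hs n)]; ring
    · simp [indicator_of_notMem hn]
  have nn : ∀ (n : ℕ) ω, 0 ≤ U.indicator (fun n => I n ω / ((n : ℝ) + 1)) n := by
    intro n ω
    refine indicator_nonneg (fun k _ => ?_) n
    rcases h01 k ω with h | h <;> rw [h] <;> positivity
  have := hasSum_integral_of_summable_integral_norm (μ := P.restrict B)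
    (F := fun n ω => U.indicator (fun n => I n ω / ((n : ℝ) + 1)) n) ?_ ?_
  · simp only [e] at this
    exact this
  · intro n
    by_cases hn : n ∈ U
    · simp only [indicator_of_mem hn]; exact (int_I I hm h01 _ n).1.div_const _
    · simp [indicator_of_notMem hn]
  · simp only [Real.norm_of_nonneg (nn _ _), e]
    refine Summable.of_nonneg_of_le (fun n => indicator_nonneg (fun k _ => by positivity) n)
      (fun n => ?_) summ
    refine (indicator_le_self' (fun _ _ => by positivity) n).trans ?_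
    have : P.real ({ω | I n ω = 1} ∩ B) ≤ 1 / ((n : ℝ) + 1) :=
      (measureReal_mono inter_subset_left).trans (hP n).le
    exact mul_le_mul_of_nonneg_left this (by positivity)

lemma lint (hm : ∀ n, Measurable (I n)) (h01 : ∀ n ω, I n ω = 0 ∨ I n ω = 1)
    (hP : ∀ n : ℕ, P.real {ω | I n ω = 1} = 1 / ((n : ℝ) + 1)) :
    (∀ᵐ ω ∂P, Summable fun n : ℕ => I n ω / ((n : ℝ) + 1)) ∧ ∀ U, Integrable (T I U) P := by
  have nn : ∀ (n : ℕ) ω, 0 ≤ I n ω / ((n : ℝ) + 1) := by
    intro n ω
    rcases h01 n ω with h | h <;> rw [h] <;> positivity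
  have hmm : ∀ n : ℕ, Measurable fun ω => ENNReal.ofReal (I n ω / ((n : ℝ) + 1)) :=
    fun n => ((hm n).div_const _).ennreal_ofReal
  have h1 : ∫⁻ ω, ∑' n : ℕ, ENNReal.ofReal (I n ω / ((n : ℝ) + 1)) ∂P ≠ ⊤ := by
    rw [lintegral_tsum fun n => (hmm n).aemeasurable]
    have : ∀ n : ℕ, ∫⁻ ω, ENNReal.ofReal (I n ω / ((n : ℝ) + 1)) ∂P
        = ENNReal.ofReal (1 / ((n : ℝ) + 1) * (1 / ((n : ℝ) + 1))) := by
      intro n
      rw [← ofReal_integral_eq_lintegral_ofReal ((int_I I hm h01 _ n).1.div_const _)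
        (ae_of_all _ (nn n)), integral_div, (int_I I hm h01 _ n).2, hP]
      congr 1; ring
    simp only [this]
    rw [← ENNReal.ofReal_tsum_of_nonneg (fun n => by positivity) summ]
    exact ENNReal.ofReal_ne_top
  have h2 : ∀ᵐ ω ∂P, Summable fun n : ℕ => I n ω / ((n : ℝ) + 1) := by
    filter_upwards [ae_lt_top (Measurable.ennreal_tsum hmm) h1] with ω hω
    refine (ENNReal.summable_toReal hω.ne).congr fun n => ENNReal.toReal_ofReal (nn n ω)
  refine ⟨h2, fun U => ⟨?_, ?_⟩⟩
  · exact ((meas_T I h01 U).mono (iSup₂_le fun i _ => (hm i).comap_le) le_rfl).aestronglyMeasurable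
  · have n2 : ∀ (n : ℕ) ω, 0 ≤ U.indicator (fun n => I n ω / ((n : ℝ) + 1)) n :=
      fun n ω => indicator_nonneg (fun k _ => nn k ω) n
    have n3 : ∀ ω, 0 ≤ T I U ω := fun ω => tsum_nonneg fun n => n2 n ω
    rw [hasFiniteIntegral_iff_ofReal (ae_of_all _ n3)]
    refine lt_of_le_of_lt (lintegral_mono_ae ?_) h1.lt_top
    filter_upwards [h2] with ω hω
    rw [← ENNReal.ofReal_tsum_of_nonneg (fun n => nn n ω) hω]
    exact ENNReal.ofReal_le_ofReal ((hω.indicator U).tsum_le_tsum
      (fun n => indicator_le_self' (fun k _ => nn k ω) n) hω)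

lemma lower (hm : ∀ n, Measurable (I n)) (h01 : ∀ n ω, I n ω = 0 ∨ I n ω = 1)
    (hind : iIndepFun I P) (hP : ∀ n : ℕ, P.real {ω | I n ω = 1} = 1 / ((n : ℝ) + 1))
    (h0 : ∀ᵐ ω ∂P, I 0 ω = 1) (M : ℕ) (hM : 1 ≤ M) :
    2 / 3 / (M : ℝ) ≤ P.real (S I ⁻¹' Ico 1 (1 + 3 / M)) := by
  have hs : ∀ n, MeasurableSet {ω | I n ω = 1} := fun n => hm n (measurableSet_singleton 1)
  set E : ℕ → Set Ω := fun M => ⋂ n ∈ Finset.Ico 1 M, {ω | I n ω = 1}ᶜ with hE
  have mE : ∀ (M : ℕ) (U : Set ℕ), (∀ n < M, n ∈ U) → MeasurableSet[sig I U] (E M) := by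
    intro M U hU
    exact Finset.measurableSet_biInter _ fun n hn =>
      (meas_sig I (hU n (Finset.mem_Ico.1 hn).2) (measurableSet_singleton 1)).compl
  have pE : ∀ M : ℕ, 1 ≤ M → P.real (E M) = 1 / M := by
    intro M hM
    induction M, hM using Nat.le_induction with
    | base => simp only [hE, Finset.Ico_self, Finset.notMem_empty, iInter_of_empty, iInter_univ]; simp
    | succ M hM ih =>
      have : E (M + 1) = {ω | I M ω = 1}ᶜ ∩ E M := by
        simp only [hE]
        rw [← Finset.insert_Ico_right_eq_Ico_add_one hM, Finset.set_biInter_insert]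
      have m1 : MeasurableSet[sig I {M}] {ω | I M ω = 1} :=
        meas_sig I (mem_singleton M) (measurableSet_singleton 1)
      rw [this, ind P I hm hind {M} m1.compl
        (mE M _ fun n hn => by simp; omega), ih, probReal_compl_eq_one_sub (hs M), hP]
      have : (0 : ℝ) < M := by exact_mod_cast hM
      push_cast; field_simp; ring
  have hM' : (0 : ℝ) < M := by exact_mod_cast hM
  set U : Set ℕ := Iio M with hU
  have hT := meas_T I h01 Uᶜ
  have hTm : Measurable (T I Uᶜ) := hT.mono (iSup₂_le fun i _ => (hm i).comap_le) le_rfl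
  have nn : ∀ (n : ℕ) ω, 0 ≤ I n ω / ((n : ℝ) + 1) := by
    intro n ω
    rcases h01 n ω with h | h <;> rw [h] <;> positivity
  have T0 : ∀ ω, 0 ≤ T I Uᶜ ω := fun ω =>
    tsum_nonneg fun n => indicator_nonneg (fun k _ => nn k ω) n
  have hint : ∫ ω, T I Uᶜ ω ∂P ≤ 1 / M := by
    have h1 := hasSum_T P I hm h01 hP Uᶜ univ
    rw [Measure.restrict_univ] at h1
    refine le_of_tendsto' h1.tendsto_sum_nat fun m => le_trans (Finset.sum_le_sum ?_) (tele M hM m)
    intro n _
    by_cases hn : M ≤ n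
    · have : n ∈ Uᶜ := by simpa [hU] using hn
      have hn' : (0 : ℝ) < n := by exact_mod_cast (by omega : 0 < n)
      rw [indicator_of_mem this, if_pos hn, inter_univ, hP, one_div_mul_one_div]
      exact one_div_le_one_div_of_le (by positivity) (by nlinarith)
    · have : n ∉ Uᶜ := by simpa [hU] using hn
      rw [indicator_of_notMem this, if_neg hn]
  have hmk := mul_meas_ge_le_integral_of_nonneg (ae_of_all P T0) ((lint P I hm h01 hP).2 Uᶜ)
    (3 / M)
  have hD : 2 / 3 ≤ P.real {ω | 3 / (M : ℝ) ≤ T I Uᶜ ω}ᶜ := by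
    rw [probReal_compl_eq_one_sub (measurableSet_le measurable_const hTm)]
    have h2 := hmk.trans hint
    have h3 : 3 / (M : ℝ) * P.real {ω | 3 / (M : ℝ) ≤ T I Uᶜ ω}
        = 3 * P.real {ω | 3 / (M : ℝ) ≤ T I Uᶜ ω} / M := by ring
    rw [h3, div_le_div_iff_of_pos_right hM'] at h2
    show 2 / 3 ≤ 1 - P.real {ω | 3 / (M : ℝ) ≤ T I Uᶜ ω}
    linarith
  have h4 := ind P I hm hind U (mE M U fun n hn => hn) (hT measurableSet_Ici (t := Ici (3 / M))).compl
  calc 2 / 3 / (M : ℝ) = 1 / M * (2 / 3) := by ring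
    _ ≤ P.real (E M) * P.real {ω | 3 / (M : ℝ) ≤ T I Uᶜ ω}ᶜ := by
        rw [pE M hM]; exact mul_le_mul_of_nonneg_left hD (by positivity)
    _ = P.real (E M ∩ {ω | 3 / (M : ℝ) ≤ T I Uᶜ ω}ᶜ) := h4.symm
    _ ≤ _ := by
        refine ENNReal.toReal_mono (measure_ne_top _ _) (measure_mono_ae ?_)
        filter_upwards [h0, (lint P I hm h01 hP).1] with ω h1 h2 h3
        have e1 : S I ω = 1 + T I Uᶜ ω := by
          rw [S, h2.tsum_eq_add_tsum_ite 0, h1, T]
          congr 1
          · simp
          · refine tsum_congr fun n => ?_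
            by_cases hn : M ≤ n
            · have : n ∈ Uᶜ := by simpa [hU] using hn
              rw [indicator_of_mem this, if_neg (by omega)]
            · have : n ∉ Uᶜ := by simpa [hU] using hn
              rw [indicator_of_notMem this]
              by_cases hn0 : n = 0
              · rw [if_pos hn0]
              · have h5 := mem_iInter₂.1 h3.1 n (Finset.mem_Ico.2 ⟨by omega, by omega⟩)
                rw [if_neg hn0, (h01 n ω).resolve_right h5, zero_div]
        have h6 : T I Uᶜ ω < 3 / M := not_le.1 h3.2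
        have h7 := T0 ω
        show S I ω ∈ Ico 1 (1 + 3 / (M : ℝ))
        rw [e1]; constructor <;> linarith

theorem result [MeasurableSpace Ω] (P : Measure Ω) [IsProbabilityMeasure P] (I : ℕ → Ω → ℝ)
    (hm : ∀ n, Measurable (I n)) (h01 : ∀ n ω, I n ω = 0 ∨ I n ω = 1) (hind : iIndepFun I P)
    (hP : ∀ n : ℕ, P.real {ω | I n ω = 1} = 1 / ((n : ℝ) + 1)) (f : ℝ → ℝ)
    (hf : P.map (S I) = volume.withDensity (fun x => ENNReal.ofReal (f x))) :
    ∃ x, 1 < x ∧ ¬ ContinuousAt f x := by
  by_contra hcon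
  push Not at hcon
  have hs : ∀ n, MeasurableSet {ω | I n ω = 1} := fun n => hm n (measurableSet_singleton 1)
  have nn : ∀ (n : ℕ) ω, 0 ≤ I n ω / ((n : ℝ) + 1) := by
    intro n ω
    rcases h01 n ω with h | h <;> rw [h] <;> positivity
  have ST : S I = T I univ := by ext ω; simp [S, T]
  have hS : Measurable (S I) := meas_tsum _ (fun n => (hm n).div_const _) nn
  obtain ⟨hsum, hint⟩ := lint P I hm h01 hP
  have h0 : ∀ᵐ ω ∂P, I 0 ω = 1 := by
    have := probReal_compl_eq_one_sub (μ := P) (hs 0)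
    rw [hP] at this
    simp only [Nat.cast_zero, zero_add, div_one, sub_self] at this
    exact (measureReal_eq_zero_iff (measure_ne_top _ _)).1 this
  have hden : ∀ a b, P (S I ⁻¹' Ico a b) = ∫⁻ x in Ico a b, ENNReal.ofReal (f x) := by
    intro a b
    rw [← Measure.map_apply hS measurableSet_Ico, hf, withDensity_apply _ measurableSet_Ico]
  have up : ∀ a b c, a ≤ b → (∀ x ∈ Ico a b, f x ≤ c) →
      P.real (S I ⁻¹' Ico a b) ≤ max c 0 * (b - a) := by
    intro a b c hab hc
    have := setLIntegral_mono' (μ := volume) measurableSet_Ico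
      fun x hx => ENNReal.ofReal_le_ofReal (hc x hx)
    rw [← hden, setLIntegral_const, Real.volume_Ico] at this
    have h2 := ENNReal.toReal_mono (by finiteness) this
    rwa [ENNReal.toReal_mul, ENNReal.toReal_ofReal', ENNReal.toReal_ofReal (by linarith)] at h2
  have dn : ∀ a b c, a ≤ b → (∀ x ∈ Ico a b, c ≤ f x) →
      max c 0 * (b - a) ≤ P.real (S I ⁻¹' Ico a b) := by
    intro a b c hab hc
    have := setLIntegral_mono' (μ := volume) measurableSet_Ico
      fun x hx => ENNReal.ofReal_le_ofReal (hc x hx)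
    rw [← hden, setLIntegral_const, Real.volume_Ico] at this
    have h2 := ENNReal.toReal_mono (measure_ne_top _ _) this
    rwa [ENNReal.toReal_mul, ENNReal.toReal_ofReal', ENNReal.toReal_ofReal (by linarith)] at h2
  obtain ⟨C, hC⟩ := (isCompact_Icc (a := (13 / 12 : ℝ)) (b := 2)).bddAbove_image
    (f := f) fun x hx => (hcon x (by linarith [hx.1])).continuousWithinAt
  refine core (fun a b => P.real (S I ⁻¹' Ico a b)) (fun a b => ∫ ω in S I ⁻¹' Ico a b, S I ω ∂P)
    (fun n a b => P.real ({ω | I n ω = 1} ∩ S I ⁻¹' Ico a b)) (max C 0 + 1) (by positivity)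
    (fun _ _ => measureReal_nonneg) (fun _ _ _ => measureReal_nonneg) ?_ ?_ ?_ ?_ ?_ ?_ ?_ ?_
    (lower P I hm h01 hind hP h0)
  · intro a b hb
    rw [measureReal_eq_zero_iff (measure_ne_top _ _), measure_eq_zero_iff_ae_notMem]
    filter_upwards [h0, hsum] with ω h1 h2 h3
    have := h2.le_tsum 0 fun n _ => nn n ω
    rw [h1] at this
    have h4 : S I ω < b := h3.2
    simp only [Nat.cast_zero, zero_add, div_one] at this
    rw [S] at h4
    linarith
  · intro n a b
    set δ : ℝ := 1 / ((n : ℝ) + 1) with hδ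
    have dec : ∀ᵐ ω ∂P, S I ω = I n ω * δ + T I {n}ᶜ ω := by
      filter_upwards [hsum] with ω h2
      rw [S, h2.tsum_eq_add_tsum_ite n, T, hδ, mul_one_div]
      congr 1
      refine tsum_congr fun m => ?_
      by_cases hmn : m = n <;> simp [hmn]
    have m1 : MeasurableSet[sig I {n}] {ω | I n ω = 1} :=
      meas_sig I (mem_singleton n) (measurableSet_singleton 1)
    have m2 : MeasurableSet[sig I {n}ᶜ] (T I {n}ᶜ ⁻¹' Ico (a - δ) (b - δ)) :=
      meas_T I h01 _ measurableSet_Ico
    have hPn : P.real {ω | I n ω = 1} = δ := hP n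
    have e1 : P.real ({ω | I n ω = 1} ∩ S I ⁻¹' Ico a b)
        = δ * P.real (T I {n}ᶜ ⁻¹' Ico (a - δ) (b - δ)) := by
      have i1 := ind P I hm hind {n} m1 m2
      rw [hPn] at i1
      rw [← i1]
      refine measureReal_congr ?_
      filter_upwards [dec] with ω h
      refine propext (and_congr_right fun h1 : I n ω = 1 => ?_)
      simp only [mem_preimage, mem_Ico, h, h1]
      constructor <;> rintro ⟨u, v⟩ <;> constructor <;> linarith
    have e2 : P.real (S I ⁻¹' Ico (a - δ) (b - δ) \ {ω | I n ω = 1})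
        = (1 - δ) * P.real (T I {n}ᶜ ⁻¹' Ico (a - δ) (b - δ)) := by
      have i2 := ind P I hm hind {n} m1.compl m2
      rw [probReal_compl_eq_one_sub (hs n), hPn] at i2
      rw [← i2, diff_eq, inter_comm]
      refine measureReal_congr ?_
      filter_upwards [dec] with ω h
      refine propext (and_congr_right fun h1 : ¬ I n ω = 1 => ?_)
      simp only [mem_preimage, h, (h01 n ω).resolve_right h1, zero_mul, zero_add]
    have e3 := measureReal_inter_add_diff (μ := P) (s := S I ⁻¹' Ico (a - δ) (b - δ)) (hs n)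
    have e4 : (n : ℝ) * δ = 1 - δ := by rw [hδ]; field_simp; ring
    beta_reduce
    rw [e1, ← e3, e2, inter_comm, ← mul_assoc, e4]; ring
  · intro a b
    refine measureReal_congr ?_
    filter_upwards [h0] with ω h
    exact propext (and_iff_right h)
  · intro a b
    have := hasSum_T P I hm h01 hP univ (S I ⁻¹' Ico a b)
    simpa only [indicator_univ, ← ST] using this
  · intro a b
    have := setIntegral_mono_on (μ := P) (f := S I) (g := fun _ => b) (s := S I ⁻¹' Ico a b)
      (ST ▸ (hint univ).integrableOn) (integrable_const b).integrableOn (hS measurableSet_Ico)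
      fun ω hω => hω.2.le
    rwa [setIntegral_const, smul_eq_mul, mul_comm] at this
  · intro a b
    have := setIntegral_mono_on (μ := P) (g := S I) (f := fun _ => a) (s := S I ⁻¹' Ico a b)
      (integrable_const a).integrableOn (ST ▸ (hint univ).integrableOn) (hS measurableSet_Ico)
      fun ω hω => hω.1
    rwa [setIntegral_const, smul_eq_mul, mul_comm] at this
  · intro y hy ε hε
    obtain ⟨d, hd, hd'⟩ := Metric.continuousAt_iff.1 (hcon y hy) (ε / 2) (by positivity)
    filter_upwards [Ioo_mem_nhdsGT hd] with h hh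
    have key : ∀ x, y - h ≤ x → x ≤ y + h → f y - ε / 2 ≤ f x ∧ f x ≤ f y + ε / 2 := by
      intro x h1 h2
      have := hd' (x := x) (by rw [Real.dist_eq, abs_lt]; constructor <;> linarith [hh.2])
      rw [Real.dist_eq, abs_lt] at this
      constructor <;> linarith [this.1, this.2]
    have h0 := hh.1
    have u1 := up y (y + h) _ (by linarith) fun x hx => (key x (by linarith [hx.1]) hx.2.le).2
    have u2 := up (y - h) y _ (by linarith) fun x hx => (key x hx.1 (by linarith [hx.2])).2
    have d1 := dn y (y + h) _ (by linarith) fun x hx => (key x (by linarith [hx.1]) hx.2.le).1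
    have d2 := dn (y - h) y _ (by linarith) fun x hx => (key x hx.1 (by linarith [hx.2])).1
    have hmx : max (f y + ε / 2) 0 ≤ max (f y - ε / 2) 0 + ε :=
      max_le (by linarith [le_max_left (f y - ε / 2) 0]) (by linarith [le_max_right (f y - ε / 2) 0])
    have h5 := mul_le_mul_of_nonneg_right hmx h0.le
    rw [add_sub_cancel_left] at u1 d1
    rw [sub_sub_cancel] at u2 d2
    rw [abs_le]; constructor <;> linarith
  · intro a b ha hab hb
    have := up a b C hab fun x hx => hC ⟨x, ⟨by linarith [hx.1], by linarith [hx.2]⟩, rfl⟩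
    beta_reduce
    nlinarith

end Pool.Agent.Results.MP_37d573_pr.Yes
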